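import Mathlib

set_option autoImplicit false
universe u

namespace Pool.Agent.Results.MP_d61ec6_gt.ConnectedOrdered

open Set Topology

theorem interp {X : Type u} [TopologicalSpace X] [T35Space X] (E : Finset X) (t : X → ℝ) :
    ∃ f : X → ℝ, Continuous f ∧ ∀ x ∈ E, f x = t x := by
  classical
  have h : ∀ x : X, ∃ g : X → ℝ, Continuous g ∧ g x = 1 ∧ ∀ y ∈ E, y ≠ x → g y = 0 := by
    intro x
    obtain ⟨f, hf, h0, h1⟩ := CompletelyRegularSpace.completely_regular x ((E.erase x : Finset X) : Set X)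
      (Finset.finite_toSet _).isClosed (by simp)
    refine ⟨fun y => 1 - (f y : ℝ), continuous_const.sub (continuous_subtype_val.comp hf), ?_, ?_⟩
    · simp [h0]
    · intro y hy hyx
      have := h1 (Finset.mem_coe.2 (Finset.mem_erase.2 ⟨hyx, hy⟩))
      simp [this]
  choose g hg h1 h0 using h
  refine ⟨fun y => ∑ x ∈ E, t x * g x y, continuous_finsetSum _ (fun x _ => continuous_const.mul (hg x)), ?_⟩
  intro y hy
  show ∑ x ∈ E, t x * g x y = t y
  rw [Finset.sum_eq_single_of_mem y hy]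
  · rw [h1, mul_one]
  · intro x hx hxy
    rw [h0 x y hy (Ne.symm hxy), mul_zero]

/-- connected linearly ordered spaces are densely ordered -/
theorem btw {X : Type u} [TopologicalSpace X] [LinearOrder X] [OrderTopology X] [ConnectedSpace X]
    (a b : X) (h : a < b) : ∃ c, a < c ∧ c < b := by
  by_contra hcon
  push Not at hcon
  have he : Set.Iic a = Set.Iio b := by
    ext x
    constructor
    · intro hx
      exact lt_of_le_of_lt hx h
    · intro hx
      by_contra hx'
      exact absurd hx (not_lt.2 (hcon x (not_le.1 hx')))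
  have hcl : IsClopen (Set.Iic a) := ⟨isClosed_Iic, by rw [he]; exact isOpen_Iio⟩
  rcases isClopen_iff.1 hcl with h1 | h1
  · have : a ∈ Set.Iic a := Set.mem_Iic.2 le_rfl
    rw [h1] at this
    exact this
  · have : b ∈ Set.Iic a := by rw [h1]; trivial
    exact absurd h (not_lt.2 this)

/-- the corner rectangle of a triple contains the pair -/
def R {X : Type u} [LinearOrder X] (t : X × X × X) (p q : X) : Prop :=
  t.1 < p ∧ p < t.2.1 ∧ t.2.1 < q ∧ q < t.2.2

/-- the open box of functions attached to a triple -/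
def W {X : Type u} [TopologicalSpace X] (t : X × X × X) : Set {f : X → ℝ // Continuous f} :=
  {f | f.1 t.1 < 0 ∧ 1 < f.1 t.2.1 ∧ f.1 t.2.1 < 2 ∧ 3 < f.1 t.2.2}

theorem key : ∀ (X : Type u) [TopologicalSpace X] [LinearOrder X] [OrderTopology X],
    CompactSpace X → ConnectedSpace X → ¬ TopologicalSpace.SeparableSpace X →
    ∃ 𝒱 : Set (Set {f : X → ℝ // Continuous f}),
      (∀ V ∈ 𝒱, IsOpen V ∧ V.Nonempty) ∧
      (∀ g : {f : X → ℝ // Continuous f}, {V | V ∈ 𝒱 ∧ g ∈ V}.Finite) ∧
      ¬ 𝒱.Countable := by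
  intro X _ _ _ hc hconn hsep
  classical
  obtain ⟨T, hT⟩ := zorn_subset
    {T : Set (X × X × X) | (∀ t ∈ T, t.1 < t.2.1 ∧ t.2.1 < t.2.2) ∧
      ∀ t ∈ T, ∀ t' ∈ T, t ≠ t' → ∀ p q, R t p q → ¬ R t' p q} (by
    intro c hc hch
    refine ⟨⋃₀ c, ⟨?_, ?_⟩, fun s hs => Set.subset_sUnion_of_mem hs⟩
    · rintro t ⟨s, hs, ht⟩
      exact (hc hs).1 t ht
    · rintro t ⟨s, hs, ht⟩ t' ⟨s', hs', ht'⟩ hne
      rcases hch.total hs hs' with h | h
      · exact (hc hs').2 t (h ht) t' ht' hne
      · exact (hc hs).2 t ht t' (h ht') hne)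
  -- uncountability
  have hunc : ¬ T.Countable := by
    intro hTc
    have hD : (⋃ t ∈ T, {t.2.1} : Set X).Countable :=
      hTc.biUnion (fun t _ => Set.countable_singleton _)
    have hnd : ¬ Dense (⋃ t ∈ T, {t.2.1} : Set X) := fun hd => hsep ⟨⟨_, hD, hd⟩⟩
    rw [dense_iff_inter_open] at hnd
    push Not at hnd
    obtain ⟨U, hU, ⟨x, hx⟩, hemp⟩ := hnd
    have hbU : ∀ t ∈ T, t.2.1 ∉ U := by
      intro t ht hmem
      have : t.2.1 ∈ U ∩ (⋃ t ∈ T, {t.2.1} : Set X) := by
        refine ⟨hmem, ?_⟩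
        rw [Set.mem_iUnion₂]
        exact ⟨t, ht, rfl⟩
      rw [hemp] at this
      exact this
    have hnt : ∃ y : X, y ≠ x := by
      by_contra hcon
      push Not at hcon
      apply hsep
      refine ⟨⟨{x}, Set.countable_singleton x, ?_⟩⟩
      intro y
      rw [hcon y]
      exact subset_closure rfl
    obtain ⟨l, u, hlu, hsub⟩ : ∃ l u : X, l < u ∧ Set.Ioo l u ⊆ U := by
      obtain ⟨y, hy⟩ := hnt
      rcases lt_or_gt_of_ne hy with h | h
      · obtain ⟨l, hl, hls⟩ := exists_Ioc_subset_of_mem_nhds (hU.mem_nhds hx) ⟨y, h⟩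
        exact ⟨l, x, hl, fun z hz => hls ⟨hz.1, hz.2.le⟩⟩
      · obtain ⟨u, hu, hus⟩ := exists_Ico_subset_of_mem_nhds (hU.mem_nhds hx) ⟨y, h⟩
        exact ⟨x, u, hu, fun z hz => hus ⟨hz.1.le, hz.2⟩⟩
    obtain ⟨b, hb1, hb2⟩ := btw l u hlu
    have hnew : ∀ t ∈ T, ∀ p q, R (l, b, u) p q → ¬ R t p q := by
      intro t ht p q h1 h2
      apply hbU t ht
      apply hsub
      exact ⟨h1.1.trans h2.2.1, h2.2.2.1.trans h1.2.2.2⟩
    have hnotin : (l, b, u) ∉ T := fun h => hbU _ h (hsub ⟨hb1, hb2⟩)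
    have hins : insert (l, b, u) T ∈ {T : Set (X × X × X) | (∀ t ∈ T, t.1 < t.2.1 ∧ t.2.1 < t.2.2) ∧
      ∀ t ∈ T, ∀ t' ∈ T, t ≠ t' → ∀ p q, R t p q → ¬ R t' p q} := by
      refine ⟨?_, ?_⟩
      · rintro t (rfl | ht)
        · exact ⟨hb1, hb2⟩
        · exact hT.prop.1 t ht
      · rintro t (rfl | ht) t' (rfl | ht') hne p q h1 h2
        · exact hne rfl
        · exact hnew t' ht' p q h1 h2
        · exact hnew t ht p q h2 h1
        · exact hT.prop.2 t ht t' ht' hne p q h1 h2
    exact hnotin (hT.le_of_ge hins (Set.subset_insert _ T) (Set.mem_insert _ T))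
  -- point-finiteness
  have hpf : ∀ g : {f : X → ℝ // Continuous f}, {t | t ∈ T ∧ g ∈ W t}.Finite := by
    intro g
    by_contra hinf
    have hinf' : {t | t ∈ T ∧ g ∈ W t}.Infinite := hinf
    obtain ⟨z, hz⟩ := hinf'.exists_accPt_principal
    have hzc : z ∈ closure {t | t ∈ T ∧ g ∈ W t} := by
      rw [mem_closure_iff_clusterPt]
      exact hz.clusterPt
    have hgc := g.2
    have k1 : z ∈ {t : X × X × X | g.1 t.1 ≤ 0} := by
      refine closure_minimal ?_ (isClosed_le (hgc.comp continuous_fst) continuous_const) hzc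
      intro t ht
      exact ht.2.1.le
    have k2 : z ∈ {t : X × X × X | 1 ≤ g.1 t.2.1} := by
      refine closure_minimal ?_ (isClosed_le continuous_const
        (hgc.comp (continuous_fst.comp continuous_snd))) hzc
      intro t ht
      exact ht.2.2.1.le
    have k3 : z ∈ {t : X × X × X | g.1 t.2.1 ≤ 2} := by
      refine closure_minimal ?_ (isClosed_le
        (hgc.comp (continuous_fst.comp continuous_snd)) continuous_const) hzc
      intro t ht
      exact ht.2.2.2.1.le
    have k4 : z ∈ {t : X × X × X | 3 ≤ g.1 t.2.2} := by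
      refine closure_minimal ?_ (isClosed_le continuous_const
        (hgc.comp (continuous_snd.comp continuous_snd))) hzc
      intro t ht
      exact ht.2.2.2.2.le
    have k5 : z ∈ {t : X × X × X | t.1 ≤ t.2.1} := by
      refine closure_minimal ?_ (isClosed_le continuous_fst (continuous_fst.comp continuous_snd)) hzc
      intro t ht
      exact (hT.prop.1 t ht.1).1.le
    have k6 : z ∈ {t : X × X × X | t.2.1 ≤ t.2.2} := by
      refine closure_minimal ?_ (isClosed_le (continuous_fst.comp continuous_snd)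
        (continuous_snd.comp continuous_snd)) hzc
      intro t ht
      exact (hT.prop.1 t ht.1).2.le
    have h1 : z.1 < z.2.1 := by
      refine lt_of_le_of_ne k5 (fun e => ?_)
      have e1 : g.1 z.1 ≤ 0 := k1
      have e2 : 1 ≤ g.1 z.2.1 := k2
      rw [e] at e1
      linarith
    have h2 : z.2.1 < z.2.2 := by
      refine lt_of_le_of_ne k6 (fun e => ?_)
      have e1 : g.1 z.2.1 ≤ 2 := k3
      have e2 : 3 ≤ g.1 z.2.2 := k4
      rw [e] at e1
      linarith
    obtain ⟨p, hp1, hp2⟩ := btw _ _ h1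
    obtain ⟨q, hq1, hq2⟩ := btw _ _ h2
    have hN : IsOpen {t : X × X × X | R t p q} := by
      have e : {t : X × X × X | R t p q} = ({t | t.1 < p} ∩ {t | p < t.2.1}) ∩ ({t | t.2.1 < q} ∩ {t | q < t.2.2}) := by
        ext t
        constructor
        · rintro ⟨a1, a2, a3, a4⟩
          exact ⟨⟨a1, a2⟩, a3, a4⟩
        · rintro ⟨⟨a1, a2⟩, a3, a4⟩
          exact ⟨a1, a2, a3, a4⟩
      rw [e]
      exact ((isOpen_lt continuous_fst continuous_const).inter
        (isOpen_lt continuous_const (continuous_fst.comp continuous_snd))).inter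
        ((isOpen_lt (continuous_fst.comp continuous_snd) continuous_const).inter
        (isOpen_lt continuous_const (continuous_snd.comp continuous_snd)))
    have hacc := accPt_iff_nhds.1 hz
    obtain ⟨t0, ⟨ht0, ht0s⟩, hne0⟩ := hacc _ (hN.mem_nhds ⟨hp1, hp2, hq1, hq2⟩)
    have hN' : {t : X × X × X | R t p q} ∩ {t0}ᶜ ∈ 𝓝 z :=
      Filter.inter_mem (hN.mem_nhds ⟨hp1, hp2, hq1, hq2⟩) (isOpen_compl_singleton.mem_nhds (Ne.symm hne0))
    obtain ⟨t1, ⟨⟨ht1, ht1n⟩, ht1s⟩, _⟩ := hacc _ hN'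
    exact hT.prop.2 t0 ht0s.1 t1 ht1s.1 (fun e => ht1n e.symm) p q ht0 ht1
  have hWne : ∀ t ∈ T, (W t).Nonempty := by
    intro t ht
    obtain ⟨h1, h2⟩ := hT.prop.1 t ht
    obtain ⟨f, hf, hft⟩ := interp {t.1, t.2.1, t.2.2}
      (fun x => if x = t.1 then -1 else if x = t.2.1 then 3 / 2 else 4)
    have e1 := hft t.1 (by simp)
    have e2 := hft t.2.1 (by simp)
    have e3 := hft t.2.2 (by simp)
    rw [if_pos rfl] at e1
    rw [if_neg h1.ne', if_pos rfl] at e2
    rw [if_neg (h1.trans h2).ne', if_neg h2.ne'] at e3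
    refine ⟨⟨f, hf⟩, ?_, ?_, ?_, ?_⟩
    · show f t.1 < 0
      rw [e1]; norm_num
    · show 1 < f t.2.1
      rw [e2]; norm_num
    · show f t.2.1 < 2
      rw [e2]; norm_num
    · show 3 < f t.2.2
      rw [e3]; norm_num
  refine ⟨W '' T, ?_, ?_, ?_⟩
  · rintro _ ⟨t, ht, rfl⟩
    refine ⟨?_, hWne t ht⟩
    have hev : ∀ x : X, Continuous (fun f : {f : X → ℝ // Continuous f} => f.1 x) :=
      fun x => (continuous_apply x).comp continuous_subtype_val
    exact (isOpen_lt (hev _) continuous_const).inter ((isOpen_lt continuous_const (hev _)).inter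
      ((isOpen_lt (hev _) continuous_const).inter (isOpen_lt continuous_const (hev _))))
  · intro g
    refine ((hpf g).image W).subset ?_
    rintro _ ⟨⟨t, ht, rfl⟩, hg⟩
    exact ⟨t, ⟨ht, hg⟩, rfl⟩
  · intro hcount
    apply hunc
    have hsub : T ⊆ ⋃ V ∈ W '' T, {t | t ∈ T ∧ W t = V} := by
      intro t ht
      rw [Set.mem_iUnion₂]
      exact ⟨W t, ⟨t, ht, rfl⟩, ht, rfl⟩
    refine (hcount.biUnion (fun V hV => ?_)).mono hsub
    obtain ⟨t, ht, rfl⟩ := hV
    obtain ⟨f, hf⟩ := hWne t ht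
    refine ((hpf f).subset ?_).countable
    rintro t' ⟨ht', e⟩
    refine ⟨ht', ?_⟩
    rw [e]
    exact hf

/-- positive answer for connected linearly ordered compacta -/
theorem result : ∀ (X : Type u) [TopologicalSpace X] [LinearOrder X] [OrderTopology X],
    CompactSpace X → ConnectedSpace X →
    (∀ A : Set X, A.Countable → SecondCountableTopology (closure A)) →
    (∀ 𝒱 : Set (Set {f : X → ℝ // Continuous f}),
      (∀ V ∈ 𝒱, IsOpen V ∧ V.Nonempty) →
      (∀ g : {f : X → ℝ // Continuous f}, {V | V ∈ 𝒱 ∧ g ∈ V}.Finite) → 𝒱.Countable) →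
    TopologicalSpace.MetrizableSpace X := by
  intro X _ _ _ hc hconn hmono hp
  have hsep : TopologicalSpace.SeparableSpace X := by
    by_contra h
    obtain ⟨𝒱, h1, h2, h3⟩ := key X hc hconn h
    exact h3 (hp 𝒱 h1 h2)
  obtain ⟨D, hD, hDd⟩ := TopologicalSpace.exists_countable_dense X
  have h1 := hmono D hD
  have h2 : closure D = Set.univ := hDd.closure_eq
  rw [h2] at h1
  have h3 : SecondCountableTopology X :=
    (Homeomorph.Set.univ X).symm.isEmbedding.secondCountableTopology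
  exact TopologicalSpace.metrizableSpace_of_t3_secondCountable X

end Pool.Agent.Results.MP_d61ec6_gt.ConnectedOrdered
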